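import Pool.Agent.Work.MP_783066_gt.NoRetract

/-!
# Brouwer's fixed point theorem and the Poincaré-Miranda theorem

* `brouwer_ball`: Brouwer for the closed unit ball of a Euclidean space.
* `brouwer_convex`: Brouwer for a nonempty compact convex subset of a finite dimensional normed
  space.
* `poincare_miranda`: the Poincaré-Miranda theorem on the cube `Icc (-1) 1` of `Fin n → ℝ`.
* `poincare_miranda_box`: the same on an arbitrary box.

Based on the no-retraction theorem of helper60.
-/

set_option autoImplicit false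

open Set Metric Topology

namespace Pool.Agent.Work.Brouwer70

section Euclid

variable {E : Type*} [NormedAddCommGroup E] [InnerProductSpace ℝ E] [FiniteDimensional ℝ E]

/-- **Brouwer's fixed point theorem** for the closed unit ball of a Euclidean space. -/
theorem brouwer_ball (f : E → E) (hf : ContinuousOn f (closedBall 0 1))
    (hm : ∀ x, ‖x‖ ≤ 1 → ‖f x‖ ≤ 1) : ∃ x, ‖x‖ ≤ 1 ∧ f x = x := by
  rcases subsingleton_or_nontrivial E with h | h
  · exact ⟨0, by simp, Subsingleton.elim _ _⟩
  by_contra hcon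
  push Not at hcon
  set u : E → E := fun x => x - f x with hu
  have hu0 : ∀ x, ‖x‖ ≤ 1 → 0 < ‖u x‖ ^ 2 := by
    intro x hx
    have : u x ≠ 0 := by
      intro h0
      exact hcon x hx (sub_eq_zero.1 h0).symm
    positivity
  set b : E → ℝ := fun x => (inner ℝ (x) (u x)) with hb
  set D : E → ℝ := fun x => b x ^ 2 + ‖u x‖ ^ 2 * (1 - ‖x‖ ^ 2) with hD
  set t : E → ℝ := fun x => (-b x + √(D x)) / ‖u x‖ ^ 2 with ht
  have hDnn : ∀ x, ‖x‖ ≤ 1 → 0 ≤ D x := by
    intro x hx
    have h1 : 0 ≤ 1 - ‖x‖ ^ 2 := by nlinarith [norm_nonneg x]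
    simp only [hD]
    positivity
  have huc : ContinuousOn u (closedBall 0 1) := continuousOn_id.sub hf
  have hbc : ContinuousOn b (closedBall 0 1) := continuousOn_id.inner huc
  have hDc : ContinuousOn D (closedBall 0 1) :=
    (hbc.pow 2).add ((huc.norm.pow 2).mul (continuousOn_const.sub (continuous_norm.pow 2).continuousOn))
  have htc : ContinuousOn t (closedBall 0 1) := by
    refine ContinuousOn.div (hbc.neg.add (Real.continuous_sqrt.comp_continuousOn hDc))
      (huc.norm.pow 2) ?_
    intro x hx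
    rw [mem_closedBall_zero_iff] at hx
    exact (hu0 x hx).ne'
  refine Pool.Agent.Work.MP_783066_gt.no_retraction (fun x => x + t x • u x)
    (continuousOn_id.add (htc.smul huc)) ?_ ?_
  · intro x hx
    have h1 : D x = b x ^ 2 := by simp only [hD, hx]; ring
    have h2 : 0 ≤ b x := by
      simp only [hb, hu]
      rw [inner_sub_right, real_inner_self_eq_norm_sq, hx]
      have h3 : (inner ℝ (x) (f x)) ≤ ‖x‖ * ‖f x‖ := real_inner_le_norm _ _
      have h4 := hm x hx.le
      rw [hx] at h3
      nlinarith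
    have h3 : t x = 0 := by
      simp only [ht]
      rw [h1, Real.sqrt_sq h2]
      simp
    simp only [h3, zero_smul, add_zero]
  · intro x hx
    have hs : √(D x) ^ 2 = D x := Real.sq_sqrt (hDnn x hx)
    have ha := hu0 x hx
    have h1 : ‖x + t x • u x‖ ^ 2 = 1 := by
      rw [norm_add_sq_real, inner_smul_right, norm_smul, mul_pow]
      have e1 : (inner ℝ (x) (u x)) = b x := rfl
      rw [e1]
      have e2 : ‖t x‖ ^ 2 = t x ^ 2 := by rw [Real.norm_eq_abs, sq_abs]
      rw [e2]
      have e3 : t x * ‖u x‖ ^ 2 = -b x + √(D x) := by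
        simp only [ht]
        exact div_mul_cancel₀ _ ha.ne'
      have e4 : ‖u x‖ ^ 2 * (2 * (t x * b x) + t x ^ 2 * ‖u x‖ ^ 2) =
          ‖u x‖ ^ 2 * (1 - ‖x‖ ^ 2) := by
        have : ‖u x‖ ^ 2 * (2 * (t x * b x) + t x ^ 2 * ‖u x‖ ^ 2) =
          2 * b x * (t x * ‖u x‖ ^ 2) + (t x * ‖u x‖ ^ 2) ^ 2 := by ring
        rw [this, e3]
        have e5 : D x = b x ^ 2 + ‖u x‖ ^ 2 * (1 - ‖x‖ ^ 2) := rfl
        nlinarith [hs, e5]
      have e6 := mul_left_cancel₀ ha.ne' e4
      linarith
    have h2 : 0 ≤ ‖x + t x • u x‖ := norm_nonneg _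
    change ‖x + t x • u x‖ = 1
    nlinarith

/-- Metric projection onto a closed convex set. -/
lemma exists_proj (K : Set E) (hne : K.Nonempty) (hcl : IsClosed K) (hconv : Convex ℝ K) :
    ∃ P : E → E, (∀ x, P x ∈ K) ∧ (∀ x ∈ K, P x = x) ∧ Continuous P := by
  have h1 : ∀ x : E, ∃ v ∈ K, ∀ w ∈ K, (inner ℝ (x - v) (w - v)) ≤ 0 := by
    intro x
    obtain ⟨v, hv, hv2⟩ := exists_norm_eq_iInf_of_complete_convex hne hcl.isComplete hconv x
    exact ⟨v, hv, (norm_eq_iInf_iff_real_inner_le_zero hconv hv).1 hv2⟩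
  choose P hP1 hP2 using h1
  refine ⟨P, hP1, ?_, ?_⟩
  · intro x hx
    have h2 := hP2 x x hx
    rw [real_inner_self_eq_norm_sq] at h2
    have h3 : ‖x - P x‖ = 0 := by nlinarith [norm_nonneg (x - P x)]
    rw [norm_eq_zero, sub_eq_zero] at h3
    exact h3.symm
  · have hL : LipschitzWith 1 P := by
      refine LipschitzWith.of_dist_le_mul fun x y => ?_
      rw [NNReal.coe_one, one_mul, dist_eq_norm, dist_eq_norm]
      have h2 := hP2 x (P y) (hP1 y)
      have h3 := hP2 y (P x) (hP1 x)
      have h4 : ‖P x - P y‖ ^ 2 ≤ (inner ℝ (x - y) (P x - P y)) := by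
        have e1 : (inner ℝ (x - P x) (P y - P x)) + (inner ℝ (y - P y) (P x - P y)) =
            ‖P x - P y‖ ^ 2 - (inner ℝ (x - y) (P x - P y)) := by
          rw [← real_inner_self_eq_norm_sq]
          simp only [inner_sub_left, inner_sub_right]
          ring
        linarith
      have h5 := real_inner_le_norm (x - y) (P x - P y)
      by_cases h6 : ‖P x - P y‖ = 0
      · rw [h6]; exact norm_nonneg _
      · have h7 : 0 < ‖P x - P y‖ := lt_of_le_of_ne (norm_nonneg _) (Ne.symm h6)
        have h8 : ‖P x - P y‖ * ‖P x - P y‖ ≤ ‖x - y‖ * ‖P x - P y‖ := by nlinarith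
        exact le_of_mul_le_mul_right h8 h7
    exact hL.continuous

lemma brouwer_convex_euclid (K : Set E) (hne : K.Nonempty) (hK : IsCompact K)
    (hconv : Convex ℝ K) (f : E → E) (hf : ContinuousOn f K) (hm : MapsTo f K K) :
    ∃ x ∈ K, f x = x := by
  obtain ⟨P, hP1, hP2, hP3⟩ := exists_proj K hne hK.isClosed hconv
  obtain ⟨R, hR0, hR⟩ : ∃ R : ℝ, 0 < R ∧ ∀ x ∈ K, ‖x‖ ≤ R := by
    obtain ⟨R, hR⟩ := hK.isBounded.exists_norm_le
    exact ⟨max R 1, by positivity, fun x hx => (hR x hx).trans (le_max_left _ _)⟩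
  have hcont : Continuous fun x : E => R⁻¹ • f (P (R • x)) := by
    have : Continuous fun x : E => f (P (R • x)) :=
      hf.comp_continuous (hP3.comp (continuous_const_smul R)) (fun x => hP1 _)
    exact this.const_smul R⁻¹
  obtain ⟨x, hx, hfx⟩ := brouwer_ball (fun x : E => R⁻¹ • f (P (R • x))) hcont.continuousOn (by
    intro x hx
    rw [norm_smul, norm_inv, Real.norm_of_nonneg hR0.le]
    have := hR _ (hm (hP1 (R • x)))
    rw [inv_mul_le_iff₀ hR0, mul_one]
    exact this)
  have h1 : f (P (R • x)) = R • x := by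
    have := congrArg (fun v => R • v) hfx
    simp only [smul_smul] at this
    rwa [mul_inv_cancel₀ hR0.ne', one_smul] at this
  have h2 : R • x ∈ K := by
    rw [← h1]
    exact hm (hP1 _)
  refine ⟨R • x, h2, ?_⟩
  rw [hP2 _ h2] at h1
  exact h1

end Euclid

/-- **Brouwer's fixed point theorem** for compact convex subsets of finite dimensional normed
spaces. -/
theorem brouwer_convex {V : Type*} [NormedAddCommGroup V] [NormedSpace ℝ V]
    [FiniteDimensional ℝ V] (K : Set V) (hne : K.Nonempty) (hK : IsCompact K)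
    (hconv : Convex ℝ K) (f : V → V) (hf : ContinuousOn f K) (hm : MapsTo f K K) :
    ∃ x ∈ K, f x = x := by
  set e := toEuclidean (E := V) with he
  have h1 : ContinuousOn (fun y => e (f (e.symm y))) (e '' K) := by
    refine e.continuous.comp_continuousOn (hf.comp e.symm.continuous.continuousOn ?_)
    rintro _ ⟨x, hx, rfl⟩
    rw [e.symm_apply_apply]
    exact hx
  obtain ⟨y, ⟨x, hx, rfl⟩, hy⟩ := brouwer_convex_euclid (e '' K) (hne.image _)
    (hK.image e.continuous) (hconv.is_linear_image e.toLinearMap.isLinear)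
    (fun y => e (f (e.symm y))) h1 (by
      rintro _ ⟨x, hx, rfl⟩
      simp only [e.symm_apply_apply]
      exact mem_image_of_mem _ (hm hx))
  refine ⟨x, hx, ?_⟩
  simp only [e.symm_apply_apply] at hy
  exact e.injective hy

/-- **The Poincaré-Miranda theorem** on the cube. -/
theorem poincare_miranda {n : ℕ} (f : (Fin n → ℝ) → (Fin n → ℝ))
    (hf : ContinuousOn f (Set.Icc (-1) 1))
    (hneg : ∀ x ∈ Set.Icc (-1 : Fin n → ℝ) 1, ∀ i, x i = -1 → f x i ≤ 0)
    (hpos : ∀ x ∈ Set.Icc (-1 : Fin n → ℝ) 1, ∀ i, x i = 1 → 0 ≤ f x i) :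
    ∃ x ∈ Set.Icc (-1 : Fin n → ℝ) 1, f x = 0 := by
  have hcont : ContinuousOn (fun x : Fin n → ℝ => fun i => max (-1) (min 1 (x i - f x i)))
      (Set.Icc (-1) 1) := by
    rw [continuousOn_pi]
    intro i
    have h1 : ContinuousOn (fun x : Fin n → ℝ => x i - f x i) (Set.Icc (-1) 1) :=
      (continuous_apply i).continuousOn.sub ((continuousOn_pi.1 hf) i)
    exact continuousOn_const.sup (continuousOn_const.inf h1)
  obtain ⟨x, hx, hfx⟩ := brouwer_convex (Set.Icc (-1 : Fin n → ℝ) 1)
    ⟨0, by
      constructor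
      · intro i; simp
      · intro i; simp⟩ isCompact_Icc (convex_Icc _ _)
    (fun x : Fin n → ℝ => fun i => max (-1) (min 1 (x i - f x i))) hcont (by
      intro x _
      constructor
      · intro i; exact le_max_left _ _
      · intro i
        exact max_le (by norm_num) (min_le_left _ _))
  refine ⟨x, hx, ?_⟩
  funext i
  have h1 : max (-1) (min 1 (x i - f x i)) = x i := congrFun hfx i
  have h2 : -1 ≤ x i := hx.1 i
  have h3 : x i ≤ 1 := hx.2 i
  have h4 := hneg x hx i
  have h5 := hpos x hx i
  simp only [Pi.zero_apply]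
  rcases eq_or_lt_of_le h2 with h6 | h6
  · have h7 := h4 h6.symm
    rw [← h6] at h1
    by_contra hne
    have h8 : f x i < 0 := lt_of_le_of_ne h7 hne
    have h9 : -1 < max (-1) (min 1 (-1 - f x i)) := by
      apply lt_max_of_lt_right
      apply lt_min <;> linarith
    linarith
  · rcases eq_or_lt_of_le h3 with h7 | h7
    · have h8 := h5 h7
      rw [h7] at h1
      by_contra hne
      have h9 : 0 < f x i := lt_of_le_of_ne h8 (Ne.symm hne)
      have h10 : max (-1) (min 1 (1 - f x i)) < 1 := by
        apply max_lt (by norm_num)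
        exact min_lt_of_right_lt (by linarith)
      linarith
    · rcases max_choice (-1) (min 1 (x i - f x i)) with h8 | h8
      · rw [h8] at h1; linarith
      · rw [h8] at h1
        rcases min_choice 1 (x i - f x i) with h9 | h9
        · rw [h9] at h1; linarith
        · rw [h9] at h1; linarith

/-- The Poincaré-Miranda theorem on a box. -/
theorem poincare_miranda_box {n : ℕ} (a b : Fin n → ℝ) (hab : a ≤ b)
    (f : (Fin n → ℝ) → (Fin n → ℝ)) (hf : ContinuousOn f (Set.Icc a b))
    (hneg : ∀ x ∈ Set.Icc a b, ∀ i, x i = a i → f x i ≤ 0)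
    (hpos : ∀ x ∈ Set.Icc a b, ∀ i, x i = b i → 0 ≤ f x i) :
    ∃ x ∈ Set.Icc a b, f x = 0 := by
  have hcont : ContinuousOn (fun x : Fin n → ℝ => fun i => max (a i) (min (b i) (x i - f x i)))
      (Set.Icc a b) := by
    rw [continuousOn_pi]
    intro i
    have h1 : ContinuousOn (fun x : Fin n → ℝ => x i - f x i) (Set.Icc a b) :=
      (continuous_apply i).continuousOn.sub ((continuousOn_pi.1 hf) i)
    exact continuousOn_const.sup (continuousOn_const.inf h1)
  obtain ⟨x, hx, hfx⟩ := brouwer_convex (Set.Icc a b) ⟨a, le_rfl, hab⟩ isCompact_Icc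
    (convex_Icc _ _)
    (fun x : Fin n → ℝ => fun i => max (a i) (min (b i) (x i - f x i))) hcont (by
      intro x _
      constructor
      · intro i; exact le_max_left _ _
      · intro i
        exact max_le (hab i) (min_le_left _ _))
  refine ⟨x, hx, ?_⟩
  funext i
  have h1 : max (a i) (min (b i) (x i - f x i)) = x i := congrFun hfx i
  have h2 : a i ≤ x i := hx.1 i
  have h3 : x i ≤ b i := hx.2 i
  have h4 := hneg x hx i
  have h5 := hpos x hx i
  simp only [Pi.zero_apply]
  by_contra hne
  rcases lt_or_gt_of_ne hne with h8 | h8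
  · -- `f x i < 0`: then `x i = b i`, contradiction with `hpos`
    rcases eq_or_lt_of_le h3 with h7 | h7
    · have := h5 h7; linarith
    · have h9 : x i < max (a i) (min (b i) (x i - f x i)) := by
        apply lt_max_of_lt_right
        apply lt_min h7
        linarith
      linarith
  · rcases eq_or_lt_of_le h2 with h7 | h7
    · have := h4 h7.symm; linarith
    · have h9 : max (a i) (min (b i) (x i - f x i)) < x i := by
        apply max_lt h7
        exact min_lt_of_right_lt (by linarith)
      linarith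

end Pool.Agent.Work.Brouwer70
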